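import Pool.Agent.T6.H43.BW.Large
import Pool.Agent.T6.H43.BW.A1
import Pool.Agent.T6.H43.BW.Small
import Pool.Agent.T6.H43.BW.G4

/-!
# 3-dissection signs of real powers of the infinite Borwein product

For every real `d` in `[(9 - √73) / 2, 1] ∪ [2, 3]` the power series
`(q, q²; q³)_∞ ^ d = A(q³) - q B(q³) - q² C(q³)` has `A`, `B`, `C` with nonnegative coefficients.
-/

set_option autoImplicit false

namespace Pool.Agent.Results.MP_067a7d_co.RealPowers

open PowerSeries
open scoped PowerSeries.WithPiTopology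

/-- The infinite Borwein product `∏_{k ≥ 0} (1 - X^(3k+1)) (1 - X^(3k+2))` as a formal power series
over the reals (infinite product in the topology of coefficientwise convergence). -/
noncomputable def borwein : PowerSeries ℝ :=
  ∏' k : ℕ, (1 - (X : PowerSeries ℝ) ^ (3 * k + 1)) * (1 - X ^ (3 * k + 2))

/-- Its `d`-th power `exp (d log borwein)`, with the formal logarithm of a power series with
constant term `1`. -/
noncomputable def cpow (d : ℝ) : PowerSeries ℝ :=
  (PowerSeries.exp ℝ).subst (d • PowerSeries.logOf borwein)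

/-- The infinite product converges, and for every real `d` in the set
`[(9 - √73) / 2, 1] ∪ [2, 3]` the coefficients of its `d`-th power satisfy
`c(3m) ≥ 0`, `c(3m+1) ≤ 0`, `c(3m+2) ≤ 0`. -/
theorem result :
    (HasProd (fun k : ℕ => (1 - (X : PowerSeries ℝ) ^ (3 * k + 1)) * (1 - X ^ (3 * k + 2)))
      borwein ∧ constantCoeff borwein = 1) ∧
    ∀ d : ℝ, d ∈ Set.Icc ((9 - √73) / 2) 1 ∪ Set.Icc 2 3 → ∀ m : ℕ,
      0 ≤ coeff (3 * m) (cpow d) ∧ coeff (3 * m + 1) (cpow d) ≤ 0 ∧
        coeff (3 * m + 2) (cpow d) ≤ 0 := by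
  refine ⟨⟨T6.H43.BW.hasProd_borwein, T6.H43.BW.constantCoeff_borwein⟩, fun d hd m => ?_⟩
  have h : ∀ n : ℕ, T6.H43.BW.Good d n := by
    intro n
    by_cases h5 : n ≤ 5
    · exact T6.H43.BW.good_small d n h5 hd
    have h0 : (0.22799 : ℝ) ≤ (9 - √73) / 2 := by
      have : √73 ≤ 8.54402 := by
        rw [Real.sqrt_le_left (by norm_num)]; norm_num
      linarith
    rcases hd with hd | hd
    · have hd1 : (0.22799 : ℝ) ≤ d := h0.trans hd.1
      rcases le_total d (13 / 50) with a1 | a1
      · rcases le_or_gt n 565 with b | b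
        · exact T6.H43.BW.fin_check d n (Or.inl ⟨hd.1, a1, b⟩)
        · exact T6.H43.BW.large1 hd1 a1 b
      rcases le_total d (3 / 10) with a2 | a2
      · rcases le_or_gt n 475 with b | b
        · exact T6.H43.BW.fin_check d n (Or.inr (Or.inl ⟨a1, a2, b⟩))
        · exact T6.H43.BW.large2 a1 a2 b
      rcases le_total d (2 / 5) with a3 | a3
      · rcases le_or_gt n 400 with b | b
        · exact T6.H43.BW.fin_check d n (Or.inr (Or.inr (Or.inl ⟨a2, a3, b⟩)))
        · exact T6.H43.BW.large3 a2 a3 b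
      rcases le_total d (1 / 2) with a4 | a4
      · rcases le_or_gt n 275 with b | b
        · exact T6.H43.BW.fin_check d n (Or.inr (Or.inr (Or.inr (Or.inl ⟨a3, a4, b⟩))))
        · exact T6.H43.BW.large4 a3 a4 b
      rcases le_total d (7 / 10) with a5 | a5
      · rcases le_or_gt n 212 with b | b
        · exact T6.H43.BW.fin_check d n (Or.inr (Or.inr (Or.inr (Or.inr (Or.inl ⟨a4, a5, b⟩)))))
        · exact T6.H43.BW.large5 a4 a5 b
      · rcases le_or_gt n 145 with b | b
        · exact T6.H43.BW.fin_check d n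
            (Or.inr (Or.inr (Or.inr (Or.inr (Or.inr (Or.inl ⟨a5, hd.2, b⟩))))))
        · exact T6.H43.BW.large6 a5 hd.2 b
    · rcases le_or_gt n 120 with b | b
      · exact T6.H43.BW.fin_check d n
          (Or.inr (Or.inr (Or.inr (Or.inr (Or.inr (Or.inr ⟨hd.1, hd.2, b⟩))))))
      · exact T6.H43.BW.large_23 hd.1 hd.2 b
  have e : ∀ n : ℕ, coeff n (cpow d) = T6.H43.BW.c d n := T6.H43.BW.coeff_cpow d
  rw [e, e, e]
  exact ⟨(h (3 * m)).1 (by omega), (h (3 * m + 1)).2 (by omega), (h (3 * m + 2)).2 (by omega)⟩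

end Pool.Agent.Results.MP_067a7d_co.RealPowers
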